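import Pool.Agent.Helper64.HG.Stmts

/-! Module MAIN: the induction. -/

set_option autoImplicit false

namespace Pool.Agent.Helper64.HG

variable {V W : Type}

theorem main_IP {G : SimpleGraph V} {H : SimpleGraph W} (f : H ↪g G) {L : List W}
    (h : IP H L) : IP G (L.map f) := by
  refine ⟨h.1.map f.injective, ?_⟩
  intro i j hi hj hij
  rw [List.length_map] at hi hj
  rw [List.getElem_map, List.getElem_map, f.map_adj_iff]
  exact h.2 i j hi hj hij

theorem main_Anti {G : SimpleGraph V} {H : SimpleGraph W} (f : H ↪g G) {A B : List W}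
    (h : Anti H A B) : Anti G (A.map f) (B.map f) := by
  intro a ha b hb
  obtain ⟨a', ha', rfl⟩ := List.mem_map.1 ha
  obtain ⟨b', hb', rfl⟩ := List.mem_map.1 hb
  obtain ⟨h1, h2⟩ := h a' ha' b' hb'
  refine ⟨fun h3 => h1 (f.injective h3), fun h3 => h2 (f.map_adj_iff.1 h3)⟩

theorem main_Anti1 {G : SimpleGraph V} {H : SimpleGraph W} (f : H ↪g G) {x : W} {B : List W}
    (h : Anti H [x] B) : Anti G [f x] (B.map f) := main_Anti f h

theorem main_Link {G : SimpleGraph V} {H : SimpleGraph W} (f : H ↪g G) {u w : W} {A : List W}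
    (h : Link H u A w) : Link G (f u) (A.map f) (f w) := by
  obtain ⟨h1, h2, h3, h4, h5, h6⟩ := h
  refine ⟨?_, main_IP f h2, ?_, ?_, ?_, ?_⟩
  · intro h
    exact h1 (List.map_eq_nil_iff.1 h)
  · intro h
    obtain ⟨a, ha, hb⟩ := List.mem_map.1 h
    rw [f.injective hb] at ha
    exact h3 ha
  · intro h
    obtain ⟨a, ha, hb⟩ := List.mem_map.1 h
    rw [f.injective hb] at ha
    exact h4 ha
  · intro x hx
    obtain ⟨a, ha, rfl⟩ := List.mem_map.1 hx
    rw [f.map_adj_iff, h5 a ha, List.head?_map]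
    constructor
    · intro h
      rw [h]
      rfl
    · intro h
      obtain ⟨b, hb, hc⟩ := Option.map_eq_some_iff.1 h
      rw [hb, f.injective hc]
  · intro x hx
    obtain ⟨a, ha, rfl⟩ := List.mem_map.1 hx
    rw [f.map_adj_iff, h6 a ha, List.getLast?_map]
    constructor
    · intro h
      rw [h]
      rfl
    · intro h
      obtain ⟨b, hb, hc⟩ := Option.map_eq_some_iff.1 h
      rw [hb, f.injective hc]

theorem main_IC {G : SimpleGraph V} {H : SimpleGraph W} (f : H ↪g G) {L : List W}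
    (h : IC H L) : IC G (L.map f) := by
  refine ⟨by rw [List.length_map]; exact h.1, h.2.1.map f.injective, ?_⟩
  intro i j hi hj hij
  rw [List.length_map] at hi hj ⊢
  rw [List.getElem_map, List.getElem_map, f.map_adj_iff]
  exact h.2.2 i j hi hj hij

theorem main_Obs {G : SimpleGraph V} {H : SimpleGraph W} (f : H ↪g G) (h : Obs H) : Obs G := by
  rcases h with h | h | h | h | h
  · left
    obtain ⟨u, w, A, B, C, h⟩ := h
    exact ⟨f u, f w, A.map f, B.map f, C.map f,
      ⟨fun h1 => h.ne (f.injective h1), fun h1 => h.nadj (f.map_adj_iff.1 h1),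
      main_Link f h.linkA, main_Link f h.linkB, main_Link f h.linkC, main_Anti f h.AB,
      main_Anti f h.AC, main_Anti f h.BC, by rw [List.length_map]; exact h.lA,
      by rw [List.length_map]; exact h.lB, by rw [List.length_map]; exact h.lC⟩⟩
  · right; left
    obtain ⟨u, w, A, B, C, h⟩ := h
    exact ⟨f u, f w, A.map f, B.map f, C.map f,
      ⟨f.map_adj_iff.2 h.adj,
      main_Link f h.linkA, main_Link f h.linkB, main_Link f h.linkC, main_Anti f h.AB,
      main_Anti f h.AC, main_Anti f h.BC, by rw [List.length_map]; exact h.lA,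
      by rw [List.length_map]; exact h.lB, by rw [List.length_map]; exact h.lC⟩⟩
  · right; right; left
    obtain ⟨x0, x1, x2, F, B, C, h⟩ := h
    exact ⟨f x0, f x1, f x2, F.map f, B.map f, C.map f,
      ⟨f.map_adj_iff.2 h.adj01, f.map_adj_iff.2 h.adj02, fun h1 => h.ne12 (f.injective h1),
      fun h1 => h.nadj12 (f.map_adj_iff.1 h1),
      main_Link f h.linkF, main_Link f h.linkB, main_Link f h.linkC, main_Anti f h.FB,
      main_Anti f h.FC, main_Anti f h.BC, main_Anti1 f h.x2F, main_Anti1 f h.x0B,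
      main_Anti1 f h.x0C, by rw [List.length_map]; exact h.lF,
      by rw [List.length_map]; exact h.lB, by rw [List.length_map]; exact h.lC⟩⟩
  · right; right; right; left
    obtain ⟨x, L, a, b, c, h⟩ := h
    refine ⟨f x, L.map f, f a, f b, f c,
      ⟨main_IC f h.ic, ?_, List.mem_map_of_mem h.aL, List.mem_map_of_mem h.bL,
      List.mem_map_of_mem h.cL, fun h1 => h.ab (f.injective h1), fun h1 => h.ac (f.injective h1),
      fun h1 => h.bc (f.injective h1), f.map_adj_iff.2 h.ha, f.map_adj_iff.2 h.hb,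
      f.map_adj_iff.2 h.hc⟩⟩
    intro h1
    obtain ⟨y, hy, hz⟩ := List.mem_map.1 h1
    rw [f.injective hz] at hy
    exact h.hL hy
  · right; right; right; right
    obtain ⟨x, A, h, h'⟩ := h
    refine ⟨fun i => f (x i), fun i j => (A i j).map f,
      ⟨f.injective.comp h.inj, ?_, ?_, ?_, ?_, ?_, ?_⟩, ?_⟩
    · intro i j
      rw [h.rev i j, List.map_reverse]
    · intro i j hij h1
      exact f.map_adj_iff.2 (h.edge i j hij (List.map_eq_nil_iff.1 h1))
    · intro i j hij h1 h2
      exact h.nedge i j hij (fun h3 => h1 (List.map_eq_nil_iff.2 h3)) (f.map_adj_iff.1 h2)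
    · intro i j hij h1
      exact main_Link f (h.link i j hij (fun h3 => h1 (List.map_eq_nil_iff.2 h3)))
    · intro i j k l h1 h2 h3 h4
      exact main_Anti f (h.anti i j k l h1 h2 h3 h4)
    · intro i j k h1 h2 h3
      exact main_Anti1 f (h.antix i j k h1 h2 h3)
    · intro i j k l a1 a2 a3 a4 a5 a6 hcon
      exact h' i j k l a1 a2 a3 a4 a5 a6 ⟨List.map_eq_nil_iff.1 hcon.1,
        List.map_eq_nil_iff.1 hcon.2.1, List.map_eq_nil_iff.1 hcon.2.2⟩

theorem main_Girth {G : SimpleGraph V} {H : SimpleGraph W} (f : H ↪g G) (h : Girth5 G) :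
    Girth5 H := by
  refine ⟨fun a b c h1 h2 h3 => ?_, fun a b c d h0 h0' h1 h2 h3 h4 => ?_⟩
  · exact h.1 (f a) (f b) (f c) (f.map_adj_iff.2 h1) (f.map_adj_iff.2 h2) (f.map_adj_iff.2 h3)
  · exact h.2 (f a) (f b) (f c) (f d) (fun h5 => h0 (f.injective h5))
      (fun h5 => h0' (f.injective h5)) (f.map_adj_iff.2 h1) (f.map_adj_iff.2 h2)
      (f.map_adj_iff.2 h3) (f.map_adj_iff.2 h4)

theorem st_MAIN (h1 : ST_STEP1) (h2 : ST_STEP2) (h0 : ST_GLUE0) (hg : ST_GLUE1) : ST_MAIN := by
  intro V _ G hG hO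
  obtain ⟨n, hn⟩ : ∃ n, n = Nat.card V := ⟨_, rfl⟩
  induction n using Nat.strong_induction_on generalizing V with
  | _ n ih =>
    have hS : ∀ S : Set V, S ≠ Set.univ → Circ (G.induce S) := by
      intro S hS
      refine ih (Nat.card S) ?_ S (G.induce S) (main_Girth (SimpleGraph.Embedding.induce S) hG)
        (fun h => hO (main_Obs (SimpleGraph.Embedding.induce S) h)) rfl
      rw [hn, Nat.card_coe_set_eq, ← Set.ncard_univ]
      exact Set.ncard_lt_ncard (Set.ssubset_univ_iff.2 hS)
    by_cases hc : G.Preconnected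
    swap
    · unfold SimpleGraph.Preconnected at hc
      push Not at hc
      obtain ⟨u, v, huv⟩ := hc
      refine h0 V G {x | G.Reachable u x} ?_ (hS _ ?_) (hS _ ?_)
      · intro x hx y hy hxy
        exact hy (SimpleGraph.Reachable.trans hx hxy.reachable)
      · intro h
        have : v ∈ ({x | G.Reachable u x} : Set V) := by rw [h]; trivial
        exact huv this
      · intro h
        have h3 : u ∈ ({x | G.Reachable u x} : Set V)ᶜ := by rw [h]; trivial
        exact h3 (SimpleGraph.Reachable.refl u)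
    by_cases hx : ∀ x : V, (G.induce {x}ᶜ).Preconnected
    swap
    · push Not at hx
      obtain ⟨x, hx⟩ := hx
      unfold SimpleGraph.Preconnected at hx
      push Not at hx
      obtain ⟨u, v, huv⟩ := hx
      refine hg V G x {y | ∃ h : y ∈ ({x}ᶜ : Set V), (G.induce {x}ᶜ).Reachable u ⟨y, h⟩}
        {y | y ≠ x ∧ ¬ ∃ h : y ∈ ({x}ᶜ : Set V), (G.induce {x}ᶜ).Reachable u ⟨y, h⟩}
        ?_ ?_ ?_ ?_ (hS _ ?_) (hS _ ?_)
      · intro y
        by_cases h3 : y = x
        · exact Or.inl h3
        · by_cases h4 : ∃ h : y ∈ ({x}ᶜ : Set V), (G.induce {x}ᶜ).Reachable u ⟨y, h⟩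
          · exact Or.inr (Or.inl h4)
          · exact Or.inr (Or.inr ⟨h3, h4⟩)
      · rintro ⟨h, -⟩
        exact h rfl
      · rintro ⟨h, -⟩
        exact h rfl
      · rintro a ⟨ha, ha'⟩ b ⟨hb, hb'⟩
        constructor
        · rintro rfl
          exact hb' ⟨ha, ha'⟩
        · intro hab
          apply hb'
          refine ⟨hb, ha'.trans ?_⟩
          have h5 : (G.induce {x}ᶜ).Adj ⟨a, ha⟩ ⟨b, hb⟩ := hab
          exact h5.reachable
      · intro h
        have h3 : (v : V) ∈ insert x
            {y | ∃ h : y ∈ ({x}ᶜ : Set V), (G.induce {x}ᶜ).Reachable u ⟨y, h⟩} := by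
          rw [h]; trivial
        rcases h3 with h3 | ⟨h3, h4⟩
        · exact v.2 h3
        · exact huv h4
      · intro h
        have h3 : (u : V) ∈ insert x
            {y | y ≠ x ∧ ¬ ∃ h : y ∈ ({x}ᶜ : Set V), (G.induce {x}ᶜ).Reachable u ⟨y, h⟩} := by
          rw [h]; trivial
        rcases h3 with h3 | ⟨h3, h4⟩
        · exact u.2 h3
        · exact h4 ⟨u.2, SimpleGraph.Reachable.refl u⟩
    by_cases hf : ∀ v, (G.induce (Far G v)).Preconnected
    · exact h2 V G hG hO ⟨hc, hx⟩ hf
    · push Not at hf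
      obtain ⟨v, hv⟩ := hf
      exact h1 V G v hG hO ⟨hc, hx⟩ hS hv

end Pool.Agent.Helper64.HG
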